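import Pool.Agent.Helper346.Cd.Final

set_option autoImplicit false

namespace Pool.Agent.Results.MP_8f38d0_ag.IndexThreeEveryDimension

open Pool.Agent.Helper346.Cd

/-- There is a field `k` of characteristic three whose absolute Galois group has cohomological
dimension at most one, such that every projective space `ℙⁿ`, `n ≥ 1`, over `k` contains a smooth
cubic hypersurface without rational points and of index three. -/
theorem result : ∃ (k : Type) (_ : Field k), CharP k 3 ∧
    CdLeOne Gal(SeparableClosure k/k) ∧
    ∀ n : ℕ, 1 ≤ n → ∃ F : MvPolynomial (Fin (n + 1)) k, F.IsHomogeneous 3 ∧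
      IsSmoothHypersurface F ∧ ¬ HasRationalPoint F ∧ IsIndex F 3 :=
  main

end Pool.Agent.Results.MP_8f38d0_ag.IndexThreeEveryDimension
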