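import Pool.Agent.Helper346.Cd.Final2

set_option autoImplicit false

namespace Pool.Agent.Results.MP_8f38d0_ag.PointsFiniteThreeRank

open Pool.Agent.Helper346.Cd

/-- Let `k` be a field of characteristic three which is spanned by `m` elements over its subfield
of cubes. Then every cubic hypersurface in `ℙⁿ` over `k`, `n ≥ 3 * 2 ^ m - 3`, has a rational
point. -/
theorem result : ∀ (k : Type) [Field k], CharP k 3 → ∀ (m : ℕ) (b : Fin m → k), SpansCubes b →
    ∀ n : ℕ, 3 * 2 ^ m ≤ n + 3 → ∀ F : MvPolynomial (Fin (n + 1)) k, F.IsHomogeneous 3 →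
      HasRationalPoint F := by
  intro k _ _ m b hb n hn F hF
  exact hasRationalPoint_of_spansCubes b hb n hn F hF

end Pool.Agent.Results.MP_8f38d0_ag.PointsFiniteThreeRank
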